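import Pool.Agent.Helper53.FM.St.Stubs
import Pool.Agent.Helper53.WR.TowNumeric
import Pool.Agent.Helper85.FB.DensLe

/-!
# FM-A5: the start of a tower (adapted from Helper67/FB/A6.lean)
-/

set_option autoImplicit false

namespace Pool.Agent.Helper94.FM

open Finset Filter
open Pool.Agent.Helper53.WR
open Pool.Agent.Helper48.FB (win crossF Cs WinLe Fs Dk LR zR dens)
open Pool.Agent.Helper53.FM

theorem winLe_mono {A : Finset ℕ} {W W' : ℕ} (h : WinLe A W) (hW : W ≤ W') : WinLe A W' :=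
  fun y h' => (h y h').trans (Nat.mul_le_mul_right _ hW)

/-- classes of small elements -/
theorem class_le_one (O : Finset ℕ) (Q : ℕ) (h : ∀ o ∈ O, o < Q) (r : ℕ) :
    (O.filter (fun o => o % Q = r)).card ≤ 1 := by
  rw [Finset.card_le_one]
  intro a ha b hb
  rw [mem_filter] at ha hb
  have h1 := Nat.mod_eq_of_lt (h a ha.1)
  have h2 := Nat.mod_eq_of_lt (h b hb.1)
  omega

/-- the set of the family -/
def YY (L m r : ℕ) : Finset ℕ := (range (2 ^ L)).filter (fun x => m ≤ x ∧ x % m = r)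

theorem class_split (R : Finset ℕ) (L m r : ℕ) (hR : ∀ x ∈ R, x < 2 ^ L) :
    (R.filter (fun o => o % m = r)).card ≤ (R ∩ YY L m r).card + 1 := by
  have hsub : R.filter (fun o => o % m = r) ⊆ insert r (R ∩ YY L m r) := by
    intro x hx
    rw [mem_filter] at hx
    rw [mem_insert]
    rcases lt_or_ge x m with h | h
    · left
      rw [Nat.mod_eq_of_lt h] at hx
      exact hx.2
    · right
      rw [mem_inter]
      refine ⟨hx.1, ?_⟩
      unfold YY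
      rw [mem_filter, mem_range]
      exact ⟨hR x hx.1, h, hx.2⟩
  exact (card_le_card hsub).trans (card_insert_le _ _)

theorem YY_filter (L m r : ℕ) :
    (YY L m r).filter (fun x => 0 ≤ x ∧ x < 2 ^ L) = YY L m r := by
  rw [filter_eq_self]
  intro x hx
  unfold YY at hx
  rw [mem_filter, mem_range] at hx
  exact ⟨Nat.zero_le _, hx.1⟩

section num

variable {a0 u0 e0 : ℕ}

theorem sqrt_bound (he : 300 ≤ e0) (hu : 100 * e0 ≤ u0) (ha : 100 * u0 ≤ a0)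
    (h20 : 20 * a0 ≤ 2 ^ e0) :
    8 * √(((4 * a0 + 8 * u0 : ℕ) : ℝ) * 2 ^ (4 * a0 + 8 * u0)) ≤
      2 ^ (e0 + 2 * a0 + 4 * u0 + 1) := by
  have hL : 4 * a0 + 8 * u0 ≤ 5 * a0 := by omega
  have hL1 : 1 ≤ 4 * a0 + 8 * u0 := by omega
  have h1 : √(((4 * a0 + 8 * u0 : ℕ) : ℝ) * 2 ^ (4 * a0 + 8 * u0)) ≤
      ((4 * a0 + 8 * u0 : ℕ) : ℝ) * 2 ^ (2 * a0 + 4 * u0) := by
    rw [Real.sqrt_le_left (by positivity)]
    have e1 : (2 : ℝ) ^ (4 * a0 + 8 * u0) = (2 ^ (2 * a0 + 4 * u0)) ^ 2 := by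
      rw [← pow_mul]; congr 1; ring
    rw [e1, mul_pow]
    have h2 : ((4 * a0 + 8 * u0 : ℕ) : ℝ) ≤ ((4 * a0 + 8 * u0 : ℕ) : ℝ) ^ 2 := by
      have : (1 : ℝ) ≤ ((4 * a0 + 8 * u0 : ℕ) : ℝ) := by exact_mod_cast hL1
      nlinarith
    exact mul_le_mul_of_nonneg_right h2 (by positivity)
  have h3 : (8 : ℝ) * ((4 * a0 + 8 * u0 : ℕ) : ℝ) ≤ 2 ^ (e0 + 1) := by
    have h4 : 8 * (4 * a0 + 8 * u0) ≤ 2 ^ (e0 + 1) := by
      rw [pow_succ]
      omega
    exact_mod_cast h4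
  calc 8 * √(((4 * a0 + 8 * u0 : ℕ) : ℝ) * 2 ^ (4 * a0 + 8 * u0))
      ≤ 8 * (((4 * a0 + 8 * u0 : ℕ) : ℝ) * 2 ^ (2 * a0 + 4 * u0)) := by gcongr
    _ = (8 * ((4 * a0 + 8 * u0 : ℕ) : ℝ)) * 2 ^ (2 * a0 + 4 * u0) := by ring
    _ ≤ 2 ^ (e0 + 1) * 2 ^ (2 * a0 + 4 * u0) :=
        mul_le_mul_of_nonneg_right h3 (by positivity)
    _ = 2 ^ (e0 + 2 * a0 + 4 * u0 + 1) := by rw [← pow_add]; congr 1; ring

theorem mean_bound (he : 300 ≤ e0) (hu : 100 * e0 ≤ u0) (ha : 100 * u0 ≤ a0)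
    (h20 : 20 * a0 ≤ 2 ^ e0) (m r s : ℕ) (hm : 2 ^ s ≤ m) :
    ∑ x ∈ YY (4 * a0 + 8 * u0) m r, dens (4 * a0 + 8 * u0) x ≤
      2 ^ (e0 + 2 * a0 + 4 * u0 + 1) / 2 ^ s := by
  have hm0 : 0 < m := lt_of_lt_of_le (by positivity) hm
  have h1 := Pool.Agent.Helper85.FB.class_dens_le (4 * a0 + 8 * u0) m r hm0
  refine h1.trans ?_
  have hm' : (2 : ℝ) ^ s ≤ m := by exact_mod_cast hm
  exact div_le_div₀ (by positivity) (sqrt_bound he hu ha h20) (by positivity) hm'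

theorem term_two (he : 300 ≤ e0) (hu : 100 * e0 ≤ u0) (ha : 100 * u0 ≤ a0)
    (h20 : 20 * a0 ≤ 2 ^ e0) {m r y : ℕ} (hm : 2 ^ (2 * a0) ≤ m)
    (hy : 2 ^ (4 * u0 + 4 * e0) ≤ y) :
    Real.exp (Real.exp 1 * ∑ x ∈ YY (4 * a0 + 8 * u0) m r, dens (4 * a0 + 8 * u0) x) /
      Real.exp 1 ^ y ≤ Real.exp (-(20 * a0 : ℝ)) := by
  have h1 := mean_bound he hu ha h20 m r (2 * a0) hm
  have h2 : (2 : ℝ) ^ (e0 + 2 * a0 + 4 * u0 + 1) / 2 ^ (2 * a0) = 2 ^ (e0 + 4 * u0 + 1) := by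
    rw [div_eq_iff (by positivity), ← pow_add]
    congr 1
    ring
  rw [h2] at h1
  rw [← Real.exp_nat_mul, mul_one, ← Real.exp_sub]
  apply Real.exp_le_exp.2
  have hs0 : 0 ≤ ∑ x ∈ YY (4 * a0 + 8 * u0) m r, dens (4 * a0 + 8 * u0) x := by
    apply sum_nonneg
    intro x _
    unfold Pool.Agent.Helper48.FB.dens
    exact le_min (by norm_num) (Real.sqrt_nonneg _)
  have h3 : Real.exp 1 * ∑ x ∈ YY (4 * a0 + 8 * u0) m r, dens (4 * a0 + 8 * u0) x ≤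
      4 * 2 ^ (e0 + 4 * u0 + 1) := by
    have he4 : Real.exp 1 ≤ 4 := by
      have := Real.exp_one_lt_d9
      linarith
    calc Real.exp 1 * ∑ x ∈ YY (4 * a0 + 8 * u0) m r, dens (4 * a0 + 8 * u0) x
        ≤ 4 * ∑ x ∈ YY (4 * a0 + 8 * u0) m r, dens (4 * a0 + 8 * u0) x :=
          mul_le_mul_of_nonneg_right he4 hs0
      _ ≤ _ := by linarith
  have h4 : (2 : ℝ) ^ (4 * u0 + 4 * e0) ≤ y := by exact_mod_cast hy
  have h5 : (8 : ℝ) * 2 ^ (e0 + 4 * u0 + 1) ≤ 2 ^ (4 * u0 + 4 * e0) := by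
    have : (8 : ℝ) * 2 ^ (e0 + 4 * u0 + 1) = 2 ^ (e0 + 4 * u0 + 4) := by
      rw [show e0 + 4 * u0 + 4 = (e0 + 4 * u0 + 1) + 3 by ring, pow_add _ _ 3]
      norm_num
      ring
    rw [this]
    exact pow_le_pow_right₀ (by norm_num) (by omega)
  have h6 : (20 : ℝ) * a0 ≤ 2 ^ (e0 + 4 * u0 + 1) := by
    have h7 : (20 : ℝ) * a0 ≤ 2 ^ e0 := by exact_mod_cast h20
    exact h7.trans (pow_le_pow_right₀ (by norm_num) (by omega))
  nlinarith

theorem term_four (he : 300 ≤ e0) (hu : 100 * e0 ≤ u0) (ha : 100 * u0 ≤ a0)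
    (h20 : 20 * a0 ≤ 2 ^ e0) {m r : ℕ} (hm : 2 ^ (4 * a0) ≤ m) :
    Real.exp ((2 : ℝ) ^ a0 * ∑ x ∈ YY (4 * a0 + 8 * u0) m r, dens (4 * a0 + 8 * u0) x) /
      ((2 : ℝ) ^ a0) ^ 8 ≤ 4 / 2 ^ (8 * a0) := by
  have h1 := mean_bound he hu ha h20 m r (4 * a0) hm
  have h2 : (2 : ℝ) ^ a0 * (2 ^ (e0 + 2 * a0 + 4 * u0 + 1) / 2 ^ (4 * a0)) ≤ 1 := by
    rw [← mul_div_assoc, div_le_one (by positivity), ← pow_add]
    exact pow_le_pow_right₀ (by norm_num) (by omega)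
  have h3 : (2 : ℝ) ^ a0 * ∑ x ∈ YY (4 * a0 + 8 * u0) m r, dens (4 * a0 + 8 * u0) x ≤ 1 :=
    (mul_le_mul_of_nonneg_left h1 (by positivity)).trans h2
  have e8 : ((2 : ℝ) ^ a0) ^ 8 = 2 ^ (8 * a0) := by rw [← pow_mul]; congr 1; ring
  rw [e8]
  have h4 : Real.exp ((2 : ℝ) ^ a0 *
      ∑ x ∈ YY (4 * a0 + 8 * u0) m r, dens (4 * a0 + 8 * u0) x) ≤ 4 := by
    have h5 := Real.exp_le_exp.2 h3
    have h6 := Real.exp_one_lt_d9
    linarith
  exact div_le_div_of_nonneg_right h4 (by positivity)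

/-- the first sum -/
theorem sum_two (ha : 1 ≤ a0) :
    ((3 * a0 + 1) * 2 ^ (6 * a0 + 2) : ℝ) * Real.exp (-(20 * a0 : ℝ)) < 1 / 4 := by
  have ha' : (1 : ℝ) ≤ a0 := by exact_mod_cast ha
  have h1 : (3 * a0 + 1 : ℝ) ≤ Real.exp (3 * a0) := by
    have := Real.add_one_le_exp (3 * a0 : ℝ)
    linarith
  have h2 : (2 : ℝ) ^ (6 * a0 + 2) ≤ Real.exp (6 * a0 + 2) := by
    have h3 : (2 : ℝ) ≤ Real.exp 1 := by
      have := Real.exp_one_gt_d9
      linarith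
    have h4 : (2 : ℝ) ^ (6 * a0 + 2) ≤ Real.exp 1 ^ (6 * a0 + 2) :=
      pow_le_pow_left₀ (by norm_num) h3 _
    rw [← Real.exp_nat_mul, mul_one] at h4
    refine h4.trans (le_of_eq ?_)
    congr 1
    push_cast
    ring
  calc ((3 * a0 + 1) * 2 ^ (6 * a0 + 2) : ℝ) * Real.exp (-(20 * a0 : ℝ))
      ≤ (Real.exp (3 * a0) * Real.exp (6 * a0 + 2)) * Real.exp (-(20 * a0 : ℝ)) := by
        gcongr
    _ = Real.exp (2 - 11 * a0) := by
        rw [← Real.exp_add, ← Real.exp_add]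
        congr 1
        ring
    _ ≤ Real.exp (-9) := Real.exp_le_exp.2 (by linarith)
    _ < 1 / 4 := by
        have h5 : (4 : ℝ) < Real.exp 9 := by
          have := Real.add_one_le_exp (9 : ℝ)
          linarith
        rw [Real.exp_neg, ← one_div]
        exact one_div_lt_one_div_of_lt (by norm_num) h5

/-- the second sum -/
theorem sum_four (he : 300 ≤ e0) (hu : 100 * e0 ≤ u0) (ha : 100 * u0 ≤ a0) :
    (((4 * a0 + 8 * u0) * 2 ^ (4 * a0 + 8 * u0 + 4) : ℕ) : ℝ) * (4 / 2 ^ (8 * a0)) < 1 / 4 := by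
  have h1 : 4 * a0 + 8 * u0 ≤ 2 ^ (a0 + 3) := by
    have h2 : a0 < 2 ^ a0 := Nat.lt_two_pow_self
    have h3 : 2 ^ (a0 + 3) = 2 ^ a0 * 8 := by rw [pow_add]; norm_num
    omega
  have h4 : (4 * a0 + 8 * u0) * 2 ^ (4 * a0 + 8 * u0 + 4) * 16 * 2 ^ 10 ≤ 2 ^ (8 * a0) := by
    calc (4 * a0 + 8 * u0) * 2 ^ (4 * a0 + 8 * u0 + 4) * 16 * 2 ^ 10
        ≤ 2 ^ (a0 + 3) * 2 ^ (4 * a0 + 8 * u0 + 4) * 2 ^ 4 * 2 ^ 10 := by
          gcongr
          norm_num
      _ = 2 ^ (5 * a0 + 8 * u0 + 21) := by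
          rw [← pow_add, ← pow_add, ← pow_add]; congr 1; ring
      _ ≤ 2 ^ (8 * a0) := Nat.pow_le_pow_right (by norm_num) (by omega)
  have h5 : (((4 * a0 + 8 * u0) * 2 ^ (4 * a0 + 8 * u0 + 4) : ℕ) : ℝ) * 16 * 2 ^ 10 ≤
      2 ^ (8 * a0) := by
    exact_mod_cast h4
  have h6 : (0 : ℝ) < 2 ^ (8 * a0) := by positivity
  rw [← mul_div_assoc, div_lt_iff₀ h6]
  nlinarith

end num

/-- FM-A5 (start of a tower; from A3). -/
theorem mi_zero {a u e κ w c : ℕ → ℕ} (h : MTow a u e κ w c) (q : ℕ → ℕ)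
    (hq : ∀ i, (q i).Prime ∧ 2 ^ (a i) < q i ∧ q i ≤ 2 ^ (a i + 1)) :
    ∃ O, MI a u e κ w c q 0 O := by
  have he := h.tow.e300 0
  have hu := h.tow.eu 0
  have ha := h.tow.ua 0
  have h20 := h.tow.h20 0
  have hκ := h.tow.hκ 0
  have hma : ∀ i, a 0 ≤ a i := fun i => h.tow.strictMono.monotone (Nat.zero_le i)
  have hmu : ∀ i, u 0 ≤ u i := fun i => h.tow.mono_u (Nat.zero_le i)
  have hme : ∀ i, e 0 ≤ e i := fun i => h.tow.mono_e (Nat.zero_le i)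
  have hL100 : 100 ≤ 4 * a 0 + 8 * u 0 := by omega
  have hκ1 : 1 ≤ κ 0 := by
    rcases Nat.eq_zero_or_pos (κ 0) with h0 | h0
    · rw [h0, mul_zero] at hκ
      omega
    · exact h0
  have hq2 : ∀ i, 2 ^ (2 * a 0) ≤ q i ^ 2 := by
    intro i
    calc 2 ^ (2 * a 0) ≤ 2 ^ (2 * a i) := Nat.pow_le_pow_right (by norm_num) (by
          have := hma i; omega)
      _ = (2 ^ a i) ^ 2 := by rw [← pow_mul]; congr 1; ring
      _ ≤ q i ^ 2 := Nat.pow_le_pow_left (hq i).2.1.le 2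
  have hq4 : ∀ i, 2 ^ (4 * a 0) ≤ q i ^ 4 := by
    intro i
    calc 2 ^ (4 * a 0) ≤ 2 ^ (4 * a i) := Nat.pow_le_pow_right (by norm_num) (by
          have := hma i; omega)
      _ = (2 ^ a i) ^ 4 := by rw [← pow_mul]; congr 1; ring
      _ ≤ q i ^ 4 := Nat.pow_le_pow_left (hq i).2.1.le 4
  have hfam : ∑ j ∈ ((range (3 * a 0 + 1)) ×ˢ (range (2 ^ (6 * a 0 + 2)))).disjSum
      ((range (4 * a 0 + 8 * u 0)) ×ˢ (range (2 ^ (4 * a 0 + 8 * u 0 + 4)))),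
      Real.exp ((Sum.elim (fun _ => Real.exp 1) (fun _ => (2 : ℝ) ^ a 0) j) *
        ∑ x ∈ ((Sum.elim (fun p : ℕ × ℕ => YY (4 * a 0 + 8 * u 0) (q p.1 ^ 2) p.2)
          (fun p : ℕ × ℕ => YY (4 * a 0 + 8 * u 0) (q p.1 ^ 4) p.2) j)).filter
            (fun x => 0 ≤ x ∧ x < 2 ^ (4 * a 0 + 8 * u 0)), dens (4 * a 0 + 8 * u 0) x) /
        (Sum.elim (fun _ => Real.exp 1) (fun _ => (2 : ℝ) ^ a 0) j) ^
          (Sum.elim (fun p : ℕ × ℕ => 2 ^ (4 * u p.1 + 4 * e p.1)) (fun _ => 8) j) < 1 / 2 := by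
    rw [Finset.sum_disjSum]
    simp only [Sum.elim_inl, Sum.elim_inr, YY_filter]
    have s1 : ∑ p ∈ (range (3 * a 0 + 1)) ×ˢ (range (2 ^ (6 * a 0 + 2))),
        Real.exp (Real.exp 1 * ∑ x ∈ YY (4 * a 0 + 8 * u 0) (q p.1 ^ 2) p.2,
          dens (4 * a 0 + 8 * u 0) x) / Real.exp 1 ^ 2 ^ (4 * u p.1 + 4 * e p.1) ≤
        ((3 * a 0 + 1) * 2 ^ (6 * a 0 + 2) : ℝ) * Real.exp (-(20 * a 0 : ℝ)) := by
      refine (Finset.sum_le_card_nsmul _ _ (Real.exp (-(20 * a 0 : ℝ))) ?_).trans (le_of_eq ?_)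
      · intro p _
        refine term_two he hu ha h20 (hq2 p.1) ?_
        exact Nat.pow_le_pow_right (by norm_num) (by
          have := hmu p.1; have := hme p.1; omega)
      · rw [nsmul_eq_mul, card_product, card_range, card_range]
        push_cast
        ring
    have s2 : ∑ p ∈ (range (4 * a 0 + 8 * u 0)) ×ˢ (range (2 ^ (4 * a 0 + 8 * u 0 + 4))),
        Real.exp ((2 : ℝ) ^ a 0 * ∑ x ∈ YY (4 * a 0 + 8 * u 0) (q p.1 ^ 4) p.2,
          dens (4 * a 0 + 8 * u 0) x) / ((2 : ℝ) ^ a 0) ^ 8 ≤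
        (((4 * a 0 + 8 * u 0) * 2 ^ (4 * a 0 + 8 * u 0 + 4) : ℕ) : ℝ) * (4 / 2 ^ (8 * a 0)) := by
      refine (Finset.sum_le_card_nsmul _ _ (4 / 2 ^ (8 * a 0)) ?_).trans (le_of_eq ?_)
      · intro p _
        exact term_four he hu ha h20 (hq4 p.1)
      · rw [nsmul_eq_mul, card_product, card_range, card_range]
    have s3 := sum_two (a0 := a 0) (by omega)
    have s4 := sum_four he hu ha
    linarith
  obtain ⟨R, hR1, hR0, hR2, hR3, hR4, hR5⟩ := Pool.Agent.Helper53.FM.St.filler_core_bal 0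
    (4 * a 0 + 8 * u 0) hL100 _ _ _ _ (by
      intro j _
      rcases j with j | j
      · simp only [Sum.elim_inl]
        have := Real.exp_one_gt_d9
        linarith
      · simp only [Sum.elim_inr]
        exact one_le_pow₀ (by norm_num)) hfam
  have hlt : ∀ x ∈ R, x < 2 ^ (4 * a 0 + 8 * u 0) := fun x hx => (hR1 x hx).2
  have hrep : ∀ n, repF R n ≤ Cs * a 0 := by
    intro n
    refine (hR3 n).trans ?_
    unfold Cs
    omega
  have h100 : 100 < 2 ^ (4 * a 0 + 8 * u 0) := by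
    have h1 : 4 * a 0 + 8 * u 0 < 2 ^ (4 * a 0 + 8 * u 0) := Nat.lt_two_pow_self
    omega
  refine ⟨R, hlt, ⟨hR0 0 (Nat.zero_le _) (by omega) (by omega),
    hR0 1 (Nat.zero_le _) (by omega) (by omega)⟩, ?_, ?_, ?_, fun n _ => hrep n, ?_, ?_⟩
  · intro i _ r
    rcases le_or_gt (a i) (3 * a 0) with hi | hi
    · have hqi : q i ^ 2 ≤ 2 ^ (6 * a 0 + 2) := by
        calc q i ^ 2 ≤ (2 ^ (a i + 1)) ^ 2 := Nat.pow_le_pow_left (hq i).2.2 2
          _ = 2 ^ (2 * a i + 2) := by rw [← pow_mul]; congr 1; ring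
          _ ≤ _ := Nat.pow_le_pow_right (by norm_num) (by omega)
      rcases lt_or_ge r (q i ^ 2) with hr | hr
      · have h1 := hR5 (Sum.inl (i, r)) (by
          rw [Finset.inl_mem_disjSum, mem_product, mem_range, mem_range]
          refine ⟨?_, lt_of_lt_of_le hr hqi⟩
          have := h.tow.le_a i
          simp only
          omega)
        simp only [Sum.elim_inl] at h1
        have h2 := class_split R (4 * a 0 + 8 * u 0) (q i ^ 2) r hlt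
        omega
      · have : (R.filter (fun o => o % q i ^ 2 = r)) = ∅ := by
          rw [filter_eq_empty_iff]
          intro x _ hx
          have h3 : 0 < q i ^ 2 := by have := (hq i).1.pos; positivity
          have := Nat.mod_lt x h3
          omega
        rw [this, card_empty]
        exact Nat.zero_le _
    · have h1 := class_le_one R (q i ^ 2) (fun o ho => lt_of_lt_of_le (hlt o ho) (by
        calc 2 ^ (4 * a 0 + 8 * u 0) ≤ 2 ^ (2 * a i) :=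
              Nat.pow_le_pow_right (by norm_num) (by omega)
          _ = (2 ^ a i) ^ 2 := by rw [← pow_mul]; congr 1; ring
          _ ≤ q i ^ 2 := Nat.pow_le_pow_left (hq i).2.1.le 2)) r
      have h2 : 1 ≤ 2 ^ (4 * u i + 4 * e i) := Nat.one_le_two_pow
      omega
  · intro i _ r
    unfold Dk
    rcases lt_or_ge (4 * a i) (4 * a 0 + 8 * u 0) with hi | hi
    · have hqi : q i ^ 4 ≤ 2 ^ (4 * a 0 + 8 * u 0 + 4) := by
        calc q i ^ 4 ≤ (2 ^ (a i + 1)) ^ 4 := Nat.pow_le_pow_left (hq i).2.2 4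
          _ = 2 ^ (4 * a i + 4) := by rw [← pow_mul]; congr 1; ring
          _ ≤ _ := Nat.pow_le_pow_right (by norm_num) (by omega)
      rcases lt_or_ge r (q i ^ 4) with hr | hr
      · have h1 := hR5 (Sum.inr (i, r)) (by
          rw [Finset.inr_mem_disjSum, mem_product, mem_range, mem_range]
          refine ⟨?_, lt_of_lt_of_le hr hqi⟩
          have := h.tow.le_a i
          simp only
          omega)
        simp only [Sum.elim_inr] at h1
        have h2 := class_split R (4 * a 0 + 8 * u 0) (q i ^ 4) r hlt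
        omega
      · have : (R.filter (fun o => o % q i ^ 4 = r)) = ∅ := by
          rw [filter_eq_empty_iff]
          intro x _ hx
          have h3 : 0 < q i ^ 4 := by have := (hq i).1.pos; positivity
          have := Nat.mod_lt x h3
          omega
        rw [this, card_empty]
        exact Nat.zero_le _
    · have h1 := class_le_one R (q i ^ 4) (fun o ho => lt_of_lt_of_le (hlt o ho) (by
        calc 2 ^ (4 * a 0 + 8 * u 0) ≤ 2 ^ (4 * a i) :=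
              Nat.pow_le_pow_right (by norm_num) (by omega)
          _ = (2 ^ a i) ^ 4 := by rw [← pow_mul]; congr 1; ring
          _ ≤ q i ^ 4 := Nat.pow_le_pow_left (hq i).2.1.le 4)) r
      omega
  · intro n
    have := hrep n
    have h2 : Cs * a 0 ≤ 4 * Cs * a 0 := by nlinarith [Nat.zero_le (Cs * a 0)]
    omega
  · intro n hn2 hn
    obtain ⟨x, hx, z, hz, hxz, h1, h2⟩ := hR2 n hn2 (by omega) (lt_of_lt_of_le hn
      (Nat.pow_le_pow_right (by norm_num) (by omega)))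
    have hc := h.c2 0
    have h4 : 4 ≤ 2 * c 0 := by omega
    exact ⟨x, hx, z, hz, hxz, h1.trans (Nat.mul_le_mul_right x h4),
      h2.trans (Nat.mul_le_mul_right z h4)⟩
  · refine winLe_mono hR4 ?_
    have h1 : a 0 < 2 ^ (Nat.log 2 (a 0) + 1) := Nat.lt_pow_succ_log_self (by norm_num) _
    have h2 : 2 ^ (Nat.log 2 (a 0) + 1) * 2 ^ 7 ≤ 2 ^ (wA a w 0 + 1) := by
      rw [← pow_add]
      refine Nat.pow_le_pow_right (by norm_num) ?_
      unfold wA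
      omega
    omega

end Pool.Agent.Helper94.FM
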